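import Pool.Agent.X186.IC.Clos

set_option autoImplicit false

/-!
Three even subgraphs of total length at least twice the number of edges in a class of graphs closed
under identification of vertices, edge-disjoint unions and sums along cuts with at most three edges.

A finite graph, loops and parallel edges allowed, has the vertex set `V` and the edge set `E`; the
ends of the edge `e` are `s e` and `t e`. The class is the class `Closure` of
`Pool/Agent/Results/MP_40718a_co/CoverClosure.lean`. The graphs of this class have six even
subgraphs which cover each edge exactly four times; then either the first three or the last three
of them are the cover.
-/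

open Finset

namespace Pool.Agent.Results.MP_5ee2e8_co.CoverClosure

open Pool.Agent.X186.IC (six_closure)
open Pool.Agent.Results.MP_40718a_co.CoverClosure (Closure)

/-- the set of edges `C` is an even subgraph: all degrees are even, where a loop counts twice -/
def IsEven {V E : Type} [DecidableEq V] (s t : E → V) (C : Finset E) : Prop :=
  ∀ v, Even (∑ e ∈ C, ((if s e = v then 1 else 0) + (if t e = v then 1 else 0)))

/-- Let `G` be a finite graph of the class `Closure`: the least class that contains all unions of two
even subgraphs and all bridgeless graphs of treewidth at most four, of carving width at most five or
of cutwidth at most six, and that is closed under identification of vertices, edge-disjoint unions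
(on a common set of vertices) and sums along cuts with at most three edges. Then there are three
even subgraphs which cover all edges and have together at least twice as many edges as `G`. -/
theorem result (V E : Type) [Fintype V] [DecidableEq V] [Fintype E] [DecidableEq E] (s t : E → V)
    (h : Closure s t) :
    ∃ C₁ C₂ C₃ : Finset E, IsEven s t C₁ ∧ IsEven s t C₂ ∧ IsEven s t C₃ ∧
      C₁ ∪ C₂ ∪ C₃ = univ ∧ 2 * Fintype.card E ≤ C₁.card + C₂.card + C₃.card :=
  Pool.Agent.Y425.BF6.Cor.two_m (six_closure h)

end Pool.Agent.Results.MP_5ee2e8_co.CoverClosure
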