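import Pool.Agent.X186.IC.Short
import Pool.Agent.X186.IC.DegSum

set_option autoImplicit false

/-!
Three even subgraphs of total length at least twice the number of edges in all bridgeless graphs
with large degree sums of non-adjacent vertices.

A finite graph, loops and parallel edges allowed, has the vertex set `V` and the edge set `E`; the
ends of the edge `e` are `s e` and `t e`. Such a bridgeless graph has six even subgraphs which cover
each edge exactly four times; then either the first three or the last three of them are the cover.
-/

open Finset

namespace Pool.Agent.Results.MP_5ee2e8_co.DegreeSums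

open Pool.Agent.X186.IC (LargeDegreeSums six dic_deg n1_br)

/-- the set of edges `C` is an even subgraph: all degrees are even, where a loop counts twice -/
def IsEven {V E : Type} [DecidableEq V] (s t : E → V) (C : Finset E) : Prop :=
  ∀ v, Even (∑ e ∈ C, ((if s e = v then 1 else 0) + (if t e = v then 1 else 0)))

/-- Let `G` be a finite graph such that no set of vertices is left by exactly one edge (no bridges).
Suppose that for some `r ≤ 4` and some `σ > 9 (r + 1)` every `r + 1` pairwise non-adjacent
vertices have numbers of neighbours with a sum of at least `σ`, and that the number `n` of vertices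
satisfies `(r + 1) n < k (σ + r + 1)`, where `k = 17, 15, 12, 9, 5` for `r = 0, 1, 2, 3, 4`
(`LargeDegreeSums`). Then
there are three even subgraphs which cover all edges and have together at least twice as many edges
as `G`. -/
theorem result (V E : Type) [Fintype V] [DecidableEq V] [Fintype E] [DecidableEq E] (s t : E → V)
    (hbridge : ∀ Z : Finset V, (univ.filter fun e => ¬ (s e ∈ Z ↔ t e ∈ Z)).card ≠ 1)
    (h : LargeDegreeSums s t) :
    ∃ C₁ C₂ C₃ : Finset E, IsEven s t C₁ ∧ IsEven s t C₂ ∧ IsEven s t C₃ ∧
      C₁ ∪ C₂ ∪ C₃ = univ ∧ 2 * Fintype.card E ≤ C₁.card + C₂.card + C₃.card :=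
  Pool.Agent.Y425.BF6.Cor.two_m (six (dic_deg (n1_br hbridge) h))

end Pool.Agent.Results.MP_5ee2e8_co.DegreeSums
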